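import Pool.Agent.Q27.CH.Fin

/-!
# Linear groups of degree two whose characters have a pole at one place only

`C` is any class of groups with the closure properties `ClosedE C` which contains all solvable groups;
all this is known for the class of the groups that satisfy the `K`-theoretic Farrell–Jones conjecture
with coefficients and finite wreath products. `DV K` is the type of the normalized discrete valuations
`D.v` of the field `K` (the value at zero is not used), and `D.ge a 0` means `a = 0` or `D.v a ≥ 0`.

Outline of the proof. Let `Γ` be a subgroup of `GL_2 (K)` with traces and determinants in a subring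
`A` of `K`, and `e : A → B` a homomorphism to a field. All minors of size five of the infinite matrix
`(tr (x y))` vanish, hence also those of the matrix `(e (tr (x y)))`, and `Γ` acts on the space
spanned by its rows, of dimension at most four. The kernel `N` of this action (and of `e ∘ det`)
consists of elements with `e (tr n) = 2`. If `e` is injective on the elements of `A` with
nonnegative valuation, the elements of `N` which fix a vertex of the Bruhat–Tits tree of `K` are
unipotent, and `Γ ⧸ N` is in `C`; the theorem on groups acting on trees applies, after the horoballs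
of the unipotent elements have been collapsed. Representations over extension fields of `K` with
traces in `K` are specialized to finite extensions of `K` by the Nullstellensatz, with solvable
kernel, and discrete valuations can be extended to finite extensions.
-/

set_option autoImplicit false

namespace Pool.Agent.Results.MP_1a2884_al.IntegralCharacters

open Pool.Agent.Y110.FJ (ClosedE)
open Q30.BT (DV DegF)

/-- the traces of the elements of `Γ` are in `T` and the determinants in `U` -/
def CharIn {L : Type} [Field L] (Γ : Subgroup (GL (Fin 2) L)) (T U : Set L) : Prop :=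
  ∀ γ ∈ Γ, γ.val.trace ∈ T ∧ γ.val.det ∈ U

/-- Let `v` be a discrete valuation of the field `K`, `Γ` a group with an injective homomorphism `j` to
`GL_2 (K)` with `v (det (j γ)) = 0` for all `γ`, and `N` a normal subgroup with `Γ ⧸ N` in `C` such
that all `n` in `N` for which `j n` has an integral trace are sent to unipotent matrices. Then `Γ` is
in `C`. -/
def NormalSubgroups (C : ∀ (G : Type) [Group G], Prop) : Prop :=
  ∀ (K : Type) [Field K] (D : DV K) (Γ : Type) [Group Γ] (j : Γ →* GL (Fin 2) K),
    Function.Injective j → (∀ γ, D.v (j γ).val.det = 0) →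
    ∀ (N : Subgroup Γ) [N.Normal], C (Γ ⧸ N) →
    (∀ n ∈ N, D.ge (j n).val.trace 0 → (j n).val.trace = 2 ∧ (j n).val.det = 1) → C Γ

/-- Let `L` be an extension field of `K`, of characteristic zero, `A` a subring of `K`, `B` a field with
`GL_m (B)` in `C` for all `m`, and `e : A → B` a homomorphism whose kernel contains no nonzero `a` with
`v a ≥ 0`. Let `Γ` be a subgroup of `GL_2 (L)` whose elements have their traces in `A` and their
determinants in `A` with valuation zero. Then `Γ` is in `C`. -/
def Valuations (C : ∀ (G : Type) [Group G], Prop) : Prop :=
  ∀ (K L B : Type) [Field K] [CharZero K] [Field L] [Algebra K L] [Field B] (D : DV K)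
    (A : Subring K) (e : A →+* B), (∀ m : ℕ, C (GL (Fin m) B)) →
    (∀ a : A, D.ge (a : K) 0 → e a = 0 → a = 0) →
    ∀ Γ : Subgroup (GL (Fin 2) L),
    CharIn Γ (algebraMap K L '' A) (algebraMap K L '' {a | a ∈ A ∧ D.v a = 0}) → C Γ

/-- Let `A` be a subring of a field `L` of characteristic zero, with a degree function with
`deg (a b) = deg a + deg b` and `deg (a + b) ≤ max (deg a) (deg b)`, and let `e : A → B` be injective
on the elements of degree zero, `B` a field with `GL_m (B)` in `C` for all `m`. Then every subgroup of
`GL_2 (L)` whose elements have their traces and determinants in `A` is in `C`. -/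
def Degrees (C : ∀ (G : Type) [Group G], Prop) : Prop :=
  ∀ (L B : Type) [Field L] [CharZero L] [Field B] (A : Subring L) (deg : A → ℕ) (e : A →+* B),
    DegF deg → (∀ a, deg a = 0 → e a = 0 → a = 0) → (∀ m : ℕ, C (GL (Fin m) B)) →
    ∀ Γ : Subgroup (GL (Fin 2) L), CharIn Γ A A → C Γ

/-- Let `L` be a field of characteristic zero, `F` a subfield with `GL_m (F)` in `C` for all `m` (for
instance an algebraic extension of `ℚ`), and `t` any family of elements of `L` that are algebraically
independent over `F`. Then every subgroup of `GL_2 (L)` whose elements have their traces and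
determinants in `F[t]` is in `C`. -/
def Polynomials (C : ∀ (G : Type) [Group G], Prop) : Prop :=
  ∀ (F L σ : Type) [Field F] [Field L] [Algebra F L] [CharZero L] (t : σ → L),
    AlgebraicIndependent F t → (∀ m : ℕ, C (GL (Fin m) F)) →
    ∀ Γ : Subgroup (GL (Fin 2) L),
    CharIn Γ (Algebra.adjoin F (Set.range t)) (Algebra.adjoin F (Set.range t)) → C Γ

/-- Every class of groups with the closure properties `ClosedE` which contains all solvable groups has
the four properties. -/
theorem result (C : ∀ (G : Type) [Group G], Prop) (hC : ClosedE C)
    (hsol : ∀ (G : Type) [Group G], Group.IsSolvable G → C G) :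
    NormalSubgroups C ∧ Valuations C ∧ Degrees C ∧ Polynomials C := by
  refine ⟨?_, ?_, ?_, ?_⟩
  · intro K _ D Γ _ j hinj hdet N _ hQ hN
    exact Q27.CH.uni_main hC hsol hinj hdet N hQ fun n hn h =>
      (Q27.CH.isU_iff _).2 (hN n hn h)
  · intro K L B _ _ _ _ _ D A e hB he Γ h
    refine Q27.CH.val_main hC hsol D A hB e he Γ.subtype Subtype.val_injective (fun γ => ?_)
      (fun γ => ?_)
    · obtain ⟨a, ha, h1⟩ := (h γ γ.2).1
      exact ⟨a, ha, h1.symm⟩
    · obtain ⟨a, ha, h1⟩ := (h γ γ.2).2
      exact ⟨a, ha.1, ha.2, h1.symm⟩
  · intro L B _ _ _ A deg e h1 he hB Γ h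
    exact Q27.CH.deg_ext hC hsol A.subtype Subtype.val_injective h1 e he hB Γ.subtype
      Subtype.val_injective (fun γ => ⟨⟨_, (h γ γ.2).1⟩, rfl⟩) (fun γ => ⟨⟨_, (h γ γ.2).2⟩, rfl⟩)
  · intro F L σ _ _ _ _ t hind hF Γ h
    exact Q27.CH.poly_ext hC hsol t hind hF Γ.subtype Subtype.val_injective
      (fun γ => (h γ γ.2).1) (fun γ => (h γ γ.2).2)

end Pool.Agent.Results.MP_1a2884_al.IntegralCharacters
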