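import Pool.Agent.Q181.MCL.Thm

/-!
# Extensions whose kernel is a McLain group

Let `R` be a ring and `L` a linearly ordered set. `L →₀ R` is the free `R`-module on `L`, and
`el i j r` is its automorphism given by the elementary matrix `1 + r E_ij` if `i < j`, and `1`
otherwise. `M L R` is McLain's group, which is generated by all these automorphisms, i.e. the group of
the finitary upper unitriangular matrices over `R` with rows and columns indexed by `L`. It is
torsion-free if the additive group of `R` is torsion-free.

`ClosedE C` lists closure properties of the class of the groups which satisfy the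
K-theoretic Farrell–Jones conjecture with additive category coefficients and finite wreath products,
and this class contains all solvable groups (Wegner). If `G` is a torsion-free group in this class
and `R'` is a regular ring then `K₀(R') → K₀(R'G)` is bijective.

Outline of the proof. By the extension criterion one has to treat `N ⋊ ⟨g⟩`, where `g` moves the
indices by an order automorphism `π` of `L`, and by passing to a union one may assume that `L` is the
union of finitely many orbits of `π`. The archimedean classes of `π` are finitely many invariant convex
subsets, which cut the matrices into blocks; the matrices with trivial diagonal blocks form a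
nilpotent normal subgroup. So one may assume that there is one class, and then all intervals of `L`
are finite. The compressions of the matrices to the translates of a finite interval give a
homomorphism from `N ⋊ ⟨g⟩` to the unrestricted wreath product of a finite unitriangular group with
`ℤ`, which is solvable, and each finitely generated subgroup of `N` is embedded in such a wreath
product.
-/

set_option autoImplicit false

namespace Pool.Agent.Results.MP_1a2884_al.McLainGroups

open Q181.MCL (el rt M ElGen)
open Pool.Agent.Y110.FJ (ClosedE)

/-- Let `C` be a class of groups with the closure properties `ClosedE C` which contains all solvable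
groups, `L` a linearly ordered set and `R` a ring.

(1) Let `N` be a subgroup of the automorphism group of the free module `L →₀ R` which is generated by
elementary matrices `1 + r E_ij`, `i < j`. Let `K` be a normal subgroup of a group `G` with an
isomorphism `e : N ≃* K`, and suppose that `G ⧸ K` is in `C`. Suppose that for every `g` in `G` there
are `n` in `K` and an order automorphism `π` of `L` such that the conjugation by `n * g` maps, for all
`i` and `j`, the subgroup of the elements `1 + r E_ij` of `N` onto the subgroup of the elements
`1 + r E_{π i, π j}` of `N`. Then `G` is in `C`.

(2) Let a group `Γ` in `C` act on `L` by order automorphisms and on `R` by ring automorphisms. Then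
`Γ` acts on McLain's group `M L R` by `1 + r E_ij ↦ 1 + (γ r) E_{γ i, γ j}`, and the semidirect
product of `M L R` and `Γ` is in `C`. -/
theorem result (C : ∀ (G : Type) [Group G], Prop) (hC : ClosedE C)
    (hsol : ∀ (G : Type) [Group G], Group.IsSolvable G → C G)
    (L R : Type) [LinearOrder L] [Ring R] :
    (∀ N : Subgroup (AddMonoid.End (L →₀ R))ˣ, ElGen N →
      ∀ (G : Type) [Group G] (K : Subgroup G) [K.Normal] (e : N ≃* K), C (G ⧸ K) →
      (∀ g : G, ∃ (n : K) (π : L ≃o L), ∀ (i j : L) (x : N), x.1 ∈ rt i j ↔
        ∃ y : N, y.1 ∈ rt (π i) (π j) ∧
          (n * g : G) * (e x : G) * (n * g : G)⁻¹ = (e y : G)) → C G) ∧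
    (∀ (Γ : Type) [Group Γ] [MulAction Γ L] [MulSemiringAction Γ R], C Γ →
      (∀ (γ : Γ) (i j : L), i < j → γ • i < γ • j) →
      ∃ α : Γ →* MulAut (M L R),
        (∀ (γ : Γ) (i j : L) (r : R) (x : M L R), x.1 = el i j r →
          (α γ x).1 = el (γ • i) (γ • j) (γ • r)) ∧
        C (M L R ⋊[α] Γ)) := by
  refine ⟨?_, ?_⟩
  · intro N hN G _ K _ e hQ h
    exact Q181.MCL.main_ext hC hsol N hN G K e hQ h
  · intro Γ _ _ _ hΓ hmono
    refine ⟨Q181.MCL.act hmono, ?_, Q181.MCL.main_sd hC hsol hmono hΓ⟩
    intro γ i j r x hx
    have h1 : x = ⟨el i j r, Q181.MCL.el_mem i j r⟩ := Subtype.ext hx
    rw [h1, Q181.MCL.act_el]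

end Pool.Agent.Results.MP_1a2884_al.McLainGroups
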