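import Pool.Agent.Q171.NF.Fac

/-!
# Groups with a normal free product of two factors, and automorphism groups of free products

`ClosedE C` lists closure properties of the class of the groups which satisfy the K-theoretic
Farrell–Jones conjecture with additive category coefficients and finite wreath products; if `G` is a
torsion-free group in this class and `R` is a regular ring then `K₀(R) → K₀(RG)` is bijective.

`cj g P` is the conjugate `g P g⁻¹` of a subgroup, `Hol A` is the holomorph `A ⋊ Aut A`, and
`FacAut A B` is the group of the automorphisms of the free product `A * B` which permute the conjugacy
classes of the two factors (this is the whole automorphism group if `A` and `B` are freely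
indecomposable and not infinite cyclic).

Outline of the proof. Let `N = A * B` be normal in `Γ`. The conjugates of `A` and `B` in `N` are the
vertices of the Bass–Serre tree of `N`. A computation with reduced words shows that a conjugate of `A`
and a conjugate of `B` which generate `N` are adjacent. So `Γ` acts on the tree. A subgroup `S` of
index at most two preserves the types of the vertices. The edge stabilizers in `S` are complements of
`N`, hence they are embedded in the quotient of `S` by `N`, which is embedded in the normalizer of `A`,
and the theorem on actions on trees with a homomorphism which is injective on the edge stabilizers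
applies. For the automorphism groups `N` is the group of the inner automorphisms; the normalizer of the
image of `A` is `Hol A × Aut B`.
-/

set_option autoImplicit false

namespace Pool.Agent.Results.MP_1a2884_al.NormalFreeProducts

open Q171.NF (cj ToConj FacAut Hol)
open Pool.Agent.Y110.FJ (ClosedE)

/-- Let `C` be a class of groups with the closure properties `ClosedE C`.

(1) Let `A` and `B` be nontrivial subgroups of a group `Γ` such that the subgroup generated by `A` and
`B` is their free product and is normal in `Γ`, and suppose that every `g` in `Γ` conjugates `A` and `B`
to conjugates of `A` or `B` by elements of this normal subgroup. Then `Γ` is in `C` if and only if the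
normalizers of `A` and `B` in `Γ` are in `C`.

(2) For nontrivial groups `A` and `B` the group of the automorphisms of the free product of `A` and `B`
which permute the conjugacy classes of the two factors is in `C` if and only if the holomorphs of `A`
and of `B` are in `C`. -/
theorem result (C : ∀ (G : Type) [Group G], Prop) (hC : ClosedE C) :
    (∀ (Γ : Type) [Group Γ] (A B : Subgroup Γ), (A ⊔ B).Normal →
      Function.Injective (Monoid.Coprod.lift A.subtype B.subtype) → A ≠ ⊥ → B ≠ ⊥ →
      (∀ g : Γ, (∃ n ∈ A ⊔ B, cj g A = cj n A ∨ cj g A = cj n B) ∧
        (∃ n ∈ A ⊔ B, cj g B = cj n A ∨ cj g B = cj n B)) →
      (C Γ ↔ C (Subgroup.normalizer (A : Set Γ)) ∧ C (Subgroup.normalizer (B : Set Γ)))) ∧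
    (∀ (A B : Type) [Group A] [Group B] [Nontrivial A] [Nontrivial B],
      C (FacAut A B) ↔ C (Hol A) ∧ C (Hol B)) := by
  refine ⟨?_, ?_⟩
  · intro Γ _ A B hN hf hA hB hP
    exact Q171.NF.main hC hf hA hB hP
  · intro A B _ _ _ _
    exact Q171.NF.main_aut hC A B

end Pool.Agent.Results.MP_1a2884_al.NormalFreeProducts
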