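import Pool.Agent.Q175.LG.Wn

set_option autoImplicit false

/-! Modules over group rings `RG` with a presentation controlled by an integral matrix whose norm is in
a window above `3 / √2` are direct sums of modules induced from virtually cyclic subgroups; every
finitely presented module has presentations of linear size with norm exponentially close to `3 / √2`. -/

namespace Pool.Agent.Results.MP_1a2884_al.WindowModules

open TH57.Thr TH6.PF Matrix

/-- The module `P` over `RG` is isomorphic to `(RG)^n` modulo the rows of an `m × n` matrix which is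
supported in the support of the integral matrix `N`. -/
def PresentedBy (R : Type) [Ring R] (G : Type) [Group G] (P : Type) [AddCommGroup P]
    [Module (MonoidAlgebra R G) P] {m n : ℕ} (N : Matrix (Fin m) (Fin n) (MonoidAlgebra ℤ G)) :
    Prop :=
  ∃ M : Matrix (Fin m) (Fin n) (MonoidAlgebra R G),
    (∀ i j g, (M i j).coeff g ≠ 0 → (N i j).coeff g ≠ 0) ∧
    Nonempty (P ≃ₗ[MonoidAlgebra R G] ((Fin n → MonoidAlgebra R G) ⧸
      LinearMap.range M.vecMulLinear))

/-- Spectral gap: the spectrum of `N N*` is contained in `{0} ∪ [K⁻², ∞)`; that is, every `x` is within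
distance `K |xN|` of the kernel of `N` on `ℓ²`, formulated with finitely supported vectors. -/
def Gap {G : Type} [Group G] {m n : ℕ} (N : Matrix (Fin m) (Fin n) (MonoidAlgebra ℤ G)) (K : ℕ) :
    Prop :=
  ∀ (x : Fin m → MonoidAlgebra ℝ G) (ε : ℝ), 0 < ε → ∃ x' : Fin m → MonoidAlgebra ℝ G,
    normSq (x' ᵥ* toReal N) ≤ ε ∧ normSq (x - x') ≤ (K : ℝ) ^ 2 * normSq (x ᵥ* toReal N) + ε

/-- The norm of `N` is at most `3 / √2 + 2⁻ᴸ`, and `L` is large compared with the size or with the
inverse of the square root of the spectral gap of `N`. -/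
def Window {G : Type} [Group G] {m n : ℕ} (N : Matrix (Fin m) (Fin n) (MonoidAlgebra ℤ G)) : Prop :=
  ∃ L : ℕ, NormLE N (3 / Real.sqrt 2 + (1 / 2) ^ L) ∧
    (2 * min m n + 30 ≤ L ∨ ∃ K : ℕ, Gap N K ∧ 16 * K + 31 ≤ L)

/-- `P` is a finite direct sum of modules induced from finitely presented modules over the group rings
of virtually cyclic (cyclic, if `G` is torsion-free) subgroups `V b`; these are projective over the
group rings of the `V b` if `P` is projective. -/
def InducedSum (R : Type) [Ring R] (G : Type) [Group G] (P : Type) [AddCommGroup P]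
    [Module (MonoidAlgebra R G) P] : Prop :=
  ∃ (k : ℕ) (V : Fin k → Subgroup G) (p q : Fin k → ℕ)
    (B : ∀ b, Matrix (Fin (p b)) (Fin (q b)) (MonoidAlgebra R (V b))),
    (∀ b, ∃ s : V b, (Subgroup.zpowers s).FiniteIndex) ∧
    ((∀ g : G, ∀ k : ℕ, 0 < k → g ^ k = 1 → g = 1) → ∀ b, IsCyclic (V b)) ∧
    Nonempty (P ≃ₗ[MonoidAlgebra R G] ∀ b, ((Fin (q b) → MonoidAlgebra R G) ⧸
      LinearMap.range ((B b).map
        (MonoidAlgebra.mapDomainRingHom R (V b).subtype)).vecMulLinear)) ∧
    (Module.Projective (MonoidAlgebra R G) P →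
      ∀ b, Module.Projective (MonoidAlgebra R (V b)) ((Fin (q b) → MonoidAlgebra R (V b)) ⧸
        LinearMap.range (B b).vecMulLinear))

/-- `NormLE N c`: right multiplication by `N` on `ℓ²` has norm at most `|c|`. -/
theorem result :
    -- (1) modules with a presentation in the window, all rings and groups
    (∀ (R : Type) [Ring R] (G : Type) [Group G] (P : Type) [AddCommGroup P]
      [Module (MonoidAlgebra R G) P] (m n : ℕ) (N : Matrix (Fin m) (Fin n) (MonoidAlgebra ℤ G)),
      PresentedBy R G P N → Window N → InducedSum R G P) ∧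
    -- (2) projective modules over fields and torsion-free groups
    (∀ (K : Type) [Field K] (G : Type) [Group G], (∀ g : G, ∀ k : ℕ, 0 < k → g ^ k = 1 → g = 1) →
      ∀ (P : Type) [AddCommGroup P] [Module (MonoidAlgebra K G) P],
      Module.Projective (MonoidAlgebra K G) P →
      ∀ (m n : ℕ) (N : Matrix (Fin m) (Fin n) (MonoidAlgebra ℤ G)),
      PresentedBy K G P N → Window N → Module.Free (MonoidAlgebra K G) P) ∧
    -- (3) presentations of linear size and norm exponentially close to `3 / √2`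
    (∀ (R : Type) [Ring R] (G : Type) [Group G] (P : Type) [AddCommGroup P]
      [Module (MonoidAlgebra R G) P], Module.FinitePresentation (MonoidAlgebra R G) P →
      ∃ C : ℕ, ∀ L : ℕ, 1 ≤ L → ∃ (m n : ℕ) (N : Matrix (Fin m) (Fin n) (MonoidAlgebra ℤ G)),
        m ≤ C * L ∧ n ≤ C * L ∧ NormLE N (3 / Real.sqrt 2 + (1 / 2) ^ L) ∧
          PresentedBy R G P N) ∧
    -- (4) projective modules over `KG` are free if this holds close to the window
    (∀ (K : Type) [Field K] (G : Type) [Group G],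
      (∀ (P : Type) [AddCommGroup P] [Module (MonoidAlgebra K G) P],
        Module.Finite (MonoidAlgebra K G) P → Module.Projective (MonoidAlgebra K G) P →
        Module.Free (MonoidAlgebra K G) P) ↔
      ∀ C : ℕ, ∃ L : ℕ, 1 ≤ L ∧ ∀ (P : Type) [AddCommGroup P] [Module (MonoidAlgebra K G) P],
        Module.Projective (MonoidAlgebra K G) P →
        ∀ (m n : ℕ) (N : Matrix (Fin m) (Fin n) (MonoidAlgebra ℤ G)), m ≤ C * L → n ≤ C * L →
          NormLE N (3 / Real.sqrt 2 + (1 / 2) ^ L) → PresentedBy K G P N →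
          Module.Free (MonoidAlgebra K G) P) := by
  have hwin : ∀ {G : Type} [Group G] {m n : ℕ} (N : Matrix (Fin m) (Fin n) (MonoidAlgebra ℤ G)),
      Window N → Pool.Agent.Q181.LG.Win N := by
    rintro G _ m n N ⟨L, hN, hw | ⟨K, hK, hw⟩⟩
    · exact Pool.Agent.Q175.LG.win_size N L hw hN
    · exact Pool.Agent.Q175.LG.win_gap N L K hw hK hN
  have h3 : ∀ (R : Type) [Ring R] (G : Type) [Group G] (P : Type) [AddCommGroup P]
      [Module (MonoidAlgebra R G) P], Module.FinitePresentation (MonoidAlgebra R G) P →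
      ∃ C : ℕ, ∀ L : ℕ, 1 ≤ L → ∃ (m n : ℕ) (N : Matrix (Fin m) (Fin n) (MonoidAlgebra ℤ G)),
        m ≤ C * L ∧ n ≤ C * L ∧ NormLE N (3 / Real.sqrt 2 + (1 / 2) ^ L) ∧
          PresentedBy R G P N := by
    intro R _ G _ P _ _ hP
    obtain ⟨m, n, A, ⟨e⟩⟩ := Pool.Agent.Q175.LG.fp_coker P hP
    obtain ⟨C, hC⟩ := Pool.Agent.Q175.LG.dil_coker (MonoidHom.id G) A
    refine ⟨m + n + C, fun L hL => ?_⟩
    obtain ⟨l, M, N, hl, ⟨e'⟩, hM, hN⟩ := hC L hL
    refine ⟨m + l, n + l, N, ?_, ?_, hN, M, fun i j g hg => hM i j g hg, ⟨e.trans e'⟩⟩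
    · have h1 : m ≤ m * L := Nat.le_mul_of_pos_right _ hL
      nlinarith [Nat.zero_le (n * L)]
    · have h1 : n ≤ n * L := Nat.le_mul_of_pos_right _ hL
      nlinarith [Nat.zero_le (m * L)]
  refine ⟨?_, ?_, h3, ?_⟩
  · rintro R _ G _ P _ _ m n N ⟨M, hs, ⟨e⟩⟩ hw
    exact Pool.Agent.Q175.LG.vc_win P m n M e N (hwin N hw) hs
  · rintro K _ G _ htf P _ _ hP m n N ⟨M, hs, ⟨e⟩⟩ hw
    exact Pool.Agent.Q175.LG.free_of_vc K G htf P hP
      (Pool.Agent.Q175.LG.vc_win P m n M e N (hwin N hw) hs)
  · intro K _ G _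
    constructor
    · rintro h C
      refine ⟨1, le_rfl, fun P _ _ hP m n N _ _ _ ⟨M, hs, ⟨e⟩⟩ => ?_⟩
      have hfin : Module.Finite (MonoidAlgebra K G) P := Module.Finite.equiv e.symm
      exact h P hfin hP
    · intro h P _ _ hfin hP
      obtain ⟨C, hC⟩ := h3 K G P (Module.finitePresentation_of_projective _ _)
      obtain ⟨L, hL, hL2⟩ := h C
      obtain ⟨m, n, N, hm, hn, hN, hp⟩ := hC L hL
      exact hL2 P hP m n N hm hn hN hp

end Pool.Agent.Results.MP_1a2884_al.WindowModules
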